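import Pool.Agent.H815.QC.Stm3

/-!
The first Betti number is invariant under isomorphisms and conjugation.
-/

set_option autoImplicit false

namespace Pool.Agent.H784.QC

open Pool.Agent.H815.QC

theorem b1_congr {K L : Type} [Group K] [Group L] (e : K ≃* L) : b1 K = b1 L := by
  unfold b1
  have E : (Additive K →+ ℚ) ≃ₗ[ℚ] (Additive L →+ ℚ) :=
    { toFun := fun f => f.comp (MulEquiv.toAdditive e.symm).toAddMonoidHom
      invFun := fun g => g.comp (MulEquiv.toAdditive e).toAddMonoidHom
      map_add' := fun f g => rfl
      map_smul' := fun c f => rfl
      left_inv := by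
        intro f
        refine AddMonoidHom.ext fun x => ?_
        show f (Additive.ofMul (e.symm (e (Additive.toMul x)))) = f x
        rw [e.symm_apply_apply]
        rfl
      right_inv := by
        intro g
        refine AddMonoidHom.ext fun x => ?_
        show g (Additive.ofMul (e (e.symm (Additive.toMul x)))) = g x
        rw [e.apply_symm_apply]
        rfl }
  exact E.finrank_eq

/-- conjugate subgroups and isomorphic groups have the same `b1` -/
theorem C2_proof : Pool.Agent.H815.QC.S_C2 := by
  refine ⟨?_, ?_⟩
  · intro K _ k L
    exact (b1_congr (L.equivMapOfInjective (MulAut.conj k).toMonoidHom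
      (MulAut.conj k).injective)).symm
  · rintro K L _ _ ⟨e⟩
    exact b1_congr e

end Pool.Agent.H784.QC
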