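import Mathlib
import Pool.Agent.H964.QC.Stm

/-! # Project QC (helper964): task OV, free evolution of weights and overlaps -/

set_option autoImplicit false

open MeasureTheory ProbabilityTheory Filter Finset

namespace Pool.Agent.H784.QC

open Pool.Agent.H964.QC

section

variable {V : Type} [Fintype V] [DecidableEq V] {C0 : ℝ} {N0 : ℕ} (W : Wlk V C0 N0)

theorem K_two (m : ℕ) (x y : V) : W.K (2 * m) x y = ∑ z, W.K m x z * W.K m y z := by
  rw [two_mul, W.K_add]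
  refine Finset.sum_congr rfl (fun z _ => ?_)
  rw [W.K_symm m z y]

theorem K_sq (m : ℕ) (hm : m ≤ N0) (x : V) : ∑ z, W.K m x z ^ 2 = rr m := by
  rw [← W.K_ret m x hm, K_two W m x x]
  refine Finset.sum_congr rfl (fun z _ => ?_)
  ring

theorem K_le_rr (m : ℕ) (x y : V) (hm : m ≤ N0) : W.K (2 * m) x y ≤ rr m := by
  rw [K_two W m x y]
  have h1 : ∑ z, W.K m x z * W.K m y z ≤ ∑ z, (W.K m x z ^ 2 + W.K m y z ^ 2) / 2 := by
    refine Finset.sum_le_sum (fun z _ => ?_)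
    nlinarith [sq_nonneg (W.K m x z - W.K m y z)]
  have h2 : ∑ z, (W.K m x z ^ 2 + W.K m y z ^ 2) / 2 = rr m := by
    rw [← Finset.sum_div, Finset.sum_add_distrib, K_sq W m hm x, K_sq W m hm y]
    ring
  exact h1.trans_eq h2

theorem K_sum' (m : ℕ) (z : V) : ∑ x, W.K m x z = 1 := by
  rw [← W.K_sum m z]
  exact Finset.sum_congr rfl (fun x _ => W.K_symm m x z)

theorem wt_nonneg (w : V → ℝ) (hw : ∀ x, 0 ≤ w x) (m : ℕ) (z : V) : 0 ≤ wt W w m z :=
  Finset.sum_nonneg (fun x _ => mul_nonneg (hw x) (W.K_nonneg m x z))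

theorem wt_zero (w : V → ℝ) : wt W w 0 = w := by
  funext z
  unfold wt
  rw [Finset.sum_eq_single z]
  · rw [W.K_zero]; simp
  · intro x _ hx
    rw [W.K_zero]; simp [hx]
  · intro h; exact absurd (Finset.mem_univ z) h

theorem wt_wt (w : V → ℝ) (m k : ℕ) : wt W (wt W w m) k = wt W w (m + k) := by
  funext z
  unfold wt
  have h1 : ∀ x, w x * W.K (m + k) x z = ∑ y, w x * W.K m x y * W.K k y z := by
    intro x
    rw [W.K_add, Finset.mul_sum]
    exact Finset.sum_congr rfl (fun y _ => by ring)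
  simp_rw [h1]
  rw [Finset.sum_comm]
  exact Finset.sum_congr rfl (fun y _ => Finset.sum_mul _ _ _)

theorem wt_sum (w : V → ℝ) (m : ℕ) : ∑ z, wt W w m z = ∑ z, w z := by
  unfold wt
  rw [Finset.sum_comm]
  refine Finset.sum_congr rfl (fun x _ => ?_)
  rw [← Finset.mul_sum, W.K_sum, mul_one]

theorem ov_wt (w : V → ℝ) (m k : ℕ) : ov W (wt W w m) k = ov W w (m + k) := by
  unfold ov
  rw [wt_wt]

theorem ov_le (w : V → ℝ) (k : ℕ) : ov W w k ≤ ∑ z, w z ^ 2 := by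
  unfold ov
  have h1 : ∀ z, wt W w k z ^ 2 ≤ ∑ x, w x ^ 2 * W.K k x z := by
    intro z
    have h2 : wt W w k z ^ 2 ≤ (∑ x, W.K k x z) * ∑ x, w x ^ 2 * W.K k x z := by
      unfold wt
      refine Finset.sum_sq_le_sum_mul_sum_of_sq_le_mul _ (fun x _ => W.K_nonneg k x z)
        (fun x _ => mul_nonneg (sq_nonneg _) (W.K_nonneg k x z)) (fun x _ => ?_)
      exact le_of_eq (by ring)
    rwa [K_sum', one_mul] at h2
  calc ∑ z, wt W w k z ^ 2 ≤ ∑ z, ∑ x, w x ^ 2 * W.K k x z := Finset.sum_le_sum (fun z _ => h1 z)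
    _ = ∑ x, w x ^ 2 := by
        rw [Finset.sum_comm]
        refine Finset.sum_congr rfl (fun x _ => ?_)
        rw [← Finset.mul_sum, W.K_sum, mul_one]

theorem ov_add_le (w : V → ℝ) (m k : ℕ) : ov W w (m + k) ≤ ov W w m := by
  rw [← ov_wt]
  exact ov_le W (wt W w m) k

theorem ov_eq (w : V → ℝ) (m : ℕ) : ov W w m = ∑ x, ∑ y, w x * w y * W.K (2 * m) x y := by
  unfold ov wt
  have h1 : ∀ z, (∑ x, w x * W.K m x z) ^ 2 = ∑ x, ∑ y, w x * w y * (W.K m x z * W.K m y z) := by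
    intro z
    rw [sq, Finset.sum_mul_sum]
    exact Finset.sum_congr rfl (fun x _ => Finset.sum_congr rfl (fun y _ => by ring))
  simp_rw [h1]
  rw [Finset.sum_comm]
  refine Finset.sum_congr rfl (fun x _ => ?_)
  rw [Finset.sum_comm]
  refine Finset.sum_congr rfl (fun y _ => ?_)
  rw [← Finset.mul_sum, K_two W m x y]

omit [DecidableEq V] in
theorem sum_sum_one (w : V → ℝ) (h : ∑ z, w z = 1) (c : ℝ) : ∑ x, ∑ y, w x * w y * c = c := by
  have h1 : ∀ x, ∑ y, w x * w y * c = w x * c := by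
    intro x
    have : ∑ y, w x * w y * c = w x * c * ∑ y, w y := by
      rw [Finset.mul_sum]
      exact Finset.sum_congr rfl (fun y _ => by ring)
    rw [this, h, mul_one]
  simp_rw [h1]
  rw [← Finset.sum_mul, h, one_mul]

theorem ov_le_rr (w : V → ℝ) (hw : ∀ x, 0 ≤ w x) (h : ∑ z, w z = 1) (m : ℕ) (hm : m ≤ N0) :
    ov W w m ≤ rr m := by
  rw [ov_eq, ← sum_sum_one w h (rr m)]
  exact Finset.sum_le_sum (fun x _ => Finset.sum_le_sum (fun y _ =>
    mul_le_mul_of_nonneg_left (K_le_rr W m x y hm) (mul_nonneg (hw x) (hw y))))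

theorem wt_le (w : V → ℝ) (hw : ∀ x, 0 ≤ w x) (h : ∑ z, w z = 1) (m : ℕ) (z : V) (hm1 : 1 ≤ m)
    (hm : m ≤ N0) : wt W w m z ≤ C0 / m := by
  unfold wt
  calc ∑ x, w x * W.K m x z ≤ ∑ x, w x * (C0 / m) :=
        Finset.sum_le_sum (fun x _ => mul_le_mul_of_nonneg_left (W.K_sup m x z hm1 hm) (hw x))
    _ = C0 / m := by rw [← Finset.sum_mul, h, one_mul]

theorem ov_le_div (w : V → ℝ) (hw : ∀ x, 0 ≤ w x) (h : ∑ z, w z = 1) (m : ℕ) (hm1 : 1 ≤ m)
    (hm : m ≤ N0) : ov W w m ≤ C0 / m := by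
  unfold ov
  calc ∑ z, wt W w m z ^ 2 ≤ ∑ z, (C0 / m) * wt W w m z := by
        refine Finset.sum_le_sum (fun z _ => ?_)
        rw [sq]
        exact mul_le_mul_of_nonneg_right (wt_le W w hw h m z hm1 hm) (wt_nonneg W w hw m z)
    _ = C0 / m := by rw [← Finset.mul_sum, wt_sum, h, mul_one]

theorem ov_lower (w : V → ℝ) (t : ℕ) (B : ℝ) (hG : Good W t B w) (m : ℕ) (hm1 : 1 ≤ m)
    (hm : m ≤ N0) : rr m - 2 * C0 * (B * t) / (m : ℝ) ^ 2 ≤ ov W w m := by
  have hC0 : 0 ≤ C0 := zero_le_one.trans W.one_le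
  have hmp : (0 : ℝ) < (m : ℝ) ^ 2 := by
    have : (0 : ℝ) < m := by exact_mod_cast hm1
    positivity
  have h := hG.sum
  have hlow : ∀ x y, w x * w y * (rr m - C0 * (W.d x + W.d y) / (m : ℝ) ^ 2) ≤
      w x * w y * W.K (2 * m) x y := by
    intro x y
    by_cases hx : w x = 0
    · simp [hx]
    by_cases hy : w y = 0
    · simp [hy]
    exact mul_le_mul_of_nonneg_left (W.K_low m t x y hm1 hm (hG.cls x hx) (hG.cls y hy))
      (mul_nonneg (hG.nonneg x) (hG.nonneg y))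
  have hsum : ∑ x, ∑ y, w x * w y * (rr m - C0 * (W.d x + W.d y) / (m : ℝ) ^ 2) =
      rr m - 2 * C0 * (∑ x, w x * W.d x) / (m : ℝ) ^ 2 := by
    have e1 : ∀ x y, w x * w y * (rr m - C0 * (W.d x + W.d y) / (m : ℝ) ^ 2) =
        w x * w y * rr m - (C0 / (m : ℝ) ^ 2) * (w x * W.d x * w y + w x * (w y * W.d y)) := by
      intro x y; ring
    simp_rw [e1, Finset.sum_sub_distrib]
    rw [sum_sum_one w h (rr m)]
    simp_rw [← Finset.mul_sum, Finset.sum_add_distrib, ← Finset.mul_sum, h, mul_one]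
    rw [← Finset.sum_mul, h, one_mul]
    ring
  rw [ov_eq]
  calc rr m - 2 * C0 * (B * t) / (m : ℝ) ^ 2
      ≤ rr m - 2 * C0 * (∑ x, w x * W.d x) / (m : ℝ) ^ 2 := by
        have : 2 * C0 * (∑ x, w x * W.d x) / (m : ℝ) ^ 2 ≤ 2 * C0 * (B * t) / (m : ℝ) ^ 2 := by
          refine div_le_div_of_nonneg_right ?_ hmp.le
          exact mul_le_mul_of_nonneg_left hG.spread (by positivity)
        linarith
    _ = ∑ x, ∑ y, w x * w y * (rr m - C0 * (W.d x + W.d y) / (m : ℝ) ^ 2) := hsum.symm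
    _ ≤ ∑ x, ∑ y, w x * w y * W.K (2 * m) x y :=
        Finset.sum_le_sum (fun x _ => Finset.sum_le_sum (fun y _ => hlow x y))

end

theorem t_OV : S_OV := by
  intro V _ _ C0 N0 W w hw
  refine ⟨wt_nonneg W w hw, wt_zero W w, wt_wt W w, wt_sum W w, ov_add_le W w, ov_wt W w,
    fun h => ⟨fun m hm => ov_le_rr W w hw h m hm, fun m z h1 hm => wt_le W w hw h m z h1 hm,
      fun m h1 hm => ov_le_div W w hw h m h1 hm⟩,
    fun t B hG m h1 hm => ov_lower W w t B hG m h1 hm, fun m x y hm => K_le_rr W m x y hm⟩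

end Pool.Agent.H784.QC
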