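import Mathlib
import Pool.Agent.H964.QC.Defs

/-! # Project QC (helper964): task OVL, the expected overlap of two planar walks -/

set_option autoImplicit false

open Finset

namespace Pool.Agent.H784.QC

open Pool.Agent.H964.QC

namespace OVL

/-! ## Pairs of boolean sequences -/

/-- number of entries `b` of the sequence `a` at the places of `I` -/
def cnt {n : ℕ} (I : Finset (Fin n)) (b : Bool) (a : Fin n → Bool) : ℕ :=
  (I.filter (fun i => a i = b)).card

theorem cnt_add {n : ℕ} (I : Finset (Fin n)) (a : Fin n → Bool) :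
    cnt I true a + cnt I false a = I.card := by
  unfold cnt
  rw [← Finset.card_filter_add_card_filter_not (s := I) (fun i => a i = true)]
  congr 2
  exact Finset.filter_congr (fun i _ => by simp)

theorem gen {n : ℕ} (I : Finset (Fin n)) (b : Bool) :
    ∑ a : Fin n → Bool, (Polynomial.X : Polynomial ℝ) ^ cnt I b a =
      (Polynomial.X + 1) ^ I.card * 2 ^ (n - I.card) := by
  classical
  have h1 : ∀ a : Fin n → Bool, (Polynomial.X : Polynomial ℝ) ^ cnt I b a =
      ∏ i, (if i ∈ I ∧ a i = b then Polynomial.X else 1) := by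
    intro a
    unfold cnt
    rw [← Finset.prod_const, Finset.prod_filter, ← Finset.prod_filter_mul_prod_filter_not
      (s := (univ : Finset (Fin n))) (fun i => i ∈ I)]
    have h2 : ∏ i ∈ univ.filter (fun i => i ∉ I),
        (if i ∈ I ∧ a i = b then (Polynomial.X : Polynomial ℝ) else 1) = 1 :=
      Finset.prod_eq_one (fun i hi => by
        rw [if_neg (fun h => (Finset.mem_filter.mp hi).2 h.1)])
    rw [h2, mul_one]
    have h3 : univ.filter (fun i => i ∈ I) = I := by ext i; simp
    rw [h3]
    exact Finset.prod_congr rfl (fun i hi => by simp [hi])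
  simp_rw [h1]
  have h4 := Finset.prod_univ_sum (fun _ : Fin n => (Finset.univ : Finset Bool))
    (fun i c => if i ∈ I ∧ c = b then (Polynomial.X : Polynomial ℝ) else 1)
  rw [Fintype.piFinset_univ] at h4
  rw [← h4]
  have h5 : ∀ i : Fin n, (∑ c : Bool, if i ∈ I ∧ c = b then (Polynomial.X : Polynomial ℝ) else 1) =
      if i ∈ I then Polynomial.X + 1 else 2 := by
    intro i
    rw [Fintype.sum_bool]
    by_cases hi : i ∈ I
    · cases b <;> simp [hi, add_comm]
    · simp only [hi, false_and, if_false]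
      norm_num
  simp_rw [h5]
  rw [Finset.prod_ite, Finset.prod_const, Finset.prod_const]
  have h3 : univ.filter (fun i => i ∈ I) = I := by ext i; simp
  have h6 : (univ.filter (fun i => i ∉ I)).card = n - I.card := by
    rw [← Finset.compl_filter, h3, Finset.card_compl, Fintype.card_fin]
  rw [h3, h6]

theorem pairs {n : ℕ} (I : Finset (Fin n)) :
    ∑ a : Fin n → Bool, ∑ a' : Fin n → Bool,
      (if cnt I true a = cnt I true a' then (1 : ℝ) else 0) =
      4 ^ (n - I.card) * (Nat.centralBinom I.card : ℝ) := by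
  have h1 : ∀ a a' : Fin n → Bool, (if cnt I true a = cnt I true a' then (1 : ℝ) else 0) =
      ((Polynomial.X : Polynomial ℝ) ^ cnt I true a * Polynomial.X ^ cnt I false a').coeff I.card := by
    intro a a'
    rw [← pow_add, Polynomial.coeff_X_pow]
    have h2 := cnt_add I a'
    by_cases h : cnt I true a = cnt I true a'
    · rw [if_pos h, if_pos (by omega)]
    · rw [if_neg h, if_neg (by omega)]
  simp_rw [h1]
  have h3 : ∑ a : Fin n → Bool, ∑ a' : Fin n → Bool,
      ((Polynomial.X : Polynomial ℝ) ^ cnt I true a * Polynomial.X ^ cnt I false a').coeff I.card =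
      ((∑ a : Fin n → Bool, (Polynomial.X : Polynomial ℝ) ^ cnt I true a) *
        ∑ a' : Fin n → Bool, Polynomial.X ^ cnt I false a').coeff I.card := by
    rw [Finset.sum_mul_sum, Polynomial.finsetSum_coeff]
    exact Finset.sum_congr rfl (fun a _ => (Polynomial.finsetSum_coeff _ _ _).symm)
  rw [h3, gen, gen]
  have h4 : (((Polynomial.X : Polynomial ℝ) + 1) ^ I.card * 2 ^ (n - I.card)) *
      ((Polynomial.X + 1) ^ I.card * 2 ^ (n - I.card)) =
      (Polynomial.X + 1) ^ (2 * I.card) * Polynomial.C ((4 : ℝ) ^ (n - I.card)) := by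
    have h5 : (Polynomial.C ((4 : ℝ) ^ (n - I.card)) : Polynomial ℝ) =
        2 ^ (n - I.card) * 2 ^ (n - I.card) := by
      rw [← mul_pow, Polynomial.C_pow]
      congr 1
      have h6 : (Polynomial.C (4 : ℝ) : Polynomial ℝ) = 4 := rfl
      rw [h6]; norm_num
    rw [h5]
    ring
  rw [h4, Polynomial.coeff_mul_C, Polynomial.coeff_X_add_one_pow, Nat.centralBinom]
  ring

/-! ## Steps -/

/-- the two rotated coordinates of a step -/
def e4 : Fin 4 ≃ Bool × Bool where
  toFun := ![(true, true), (false, false), (true, false), (false, true)]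
  invFun := fun p => match p with
    | (true, true) => 0
    | (false, false) => 1
    | (true, false) => 2
    | (false, true) => 3
  left_inv := by decide
  right_inv := by decide

/-- sign -/
def sgz (b : Bool) : ℤ := bif b then 1 else -1

theorem stp_add (e : Fin 4) : (stp e).1 + (stp e).2 = sgz (e4 e).1 := by
  revert e; decide

theorem stp_sub (e : Fin 4) : (stp e).1 - (stp e).2 = sgz (e4 e).2 := by
  revert e; decide

theorem sum_sgz {n : ℕ} (I : Finset (Fin n)) (a : Fin n → Bool) :
    ∑ i ∈ I, sgz (a i) = 2 * (cnt I true a : ℤ) - I.card := by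
  have h1 : ∀ i, sgz (a i) = 2 * (if a i = true then 1 else 0) - 1 := by
    intro i
    cases a i <;> simp [sgz]
  simp_rw [h1]
  rw [Finset.sum_sub_distrib, ← Finset.mul_sum]
  unfold cnt
  rw [Finset.card_filter]
  push_cast
  simp

/-- the places before `k` -/
def II (n k : ℕ) : Finset (Fin n) := univ.filter (fun i : Fin n => (i : ℕ) < k)

theorem card_II {n k : ℕ} (hk : k ≤ n) : (II n k).card = k := by
  unfold II
  rw [Finset.card_filter, Fin.sum_univ_eq_sum_range (fun i => if i < k then 1 else 0) n,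
    ← Finset.card_filter]
  have : (range n).filter (fun i => i < k) = range k := by
    ext i
    simp only [Finset.mem_filter, Finset.mem_range]
    omega
  rw [this, Finset.card_range]

theorem pos_iff {n : ℕ} (s s2 : Fin n → Fin 4) (k : ℕ) : pos s k = pos s2 k ↔
    cnt (II n k) true (fun i => (e4 (s i)).1) = cnt (II n k) true (fun i => (e4 (s2 i)).1) ∧
    cnt (II n k) true (fun i => (e4 (s i)).2) = cnt (II n k) true (fun i => (e4 (s2 i)).2) := by
  have h1 : ∀ s : Fin n → Fin 4, (pos s k).1 + (pos s k).2 =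
      2 * (cnt (II n k) true (fun i => (e4 (s i)).1) : ℤ) - (II n k).card := by
    intro s
    rw [← sum_sgz, pos, Prod.fst_sum, Prod.snd_sum, ← Finset.sum_add_distrib]
    exact Finset.sum_congr rfl (fun i _ => stp_add _)
  have h2 : ∀ s : Fin n → Fin 4, (pos s k).1 - (pos s k).2 =
      2 * (cnt (II n k) true (fun i => (e4 (s i)).2) : ℤ) - (II n k).card := by
    intro s
    rw [← sum_sgz, pos, Prod.fst_sum, Prod.snd_sum, ← Finset.sum_sub_distrib]
    exact Finset.sum_congr rfl (fun i _ => stp_sub _)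
  have a1 := h1 s
  have a2 := h1 s2
  have b1 := h2 s
  have b2 := h2 s2
  rw [Prod.ext_iff]
  constructor
  · rintro ⟨e1, e2⟩
    constructor <;> omega
  · rintro ⟨e1, e2⟩
    constructor <;> omega

/-- sequences of steps as pairs of boolean sequences -/
def Phi (n : ℕ) : (Fin n → Fin 4) ≃ (Fin n → Bool) × (Fin n → Bool) where
  toFun := fun s => (fun i => (e4 (s i)).1, fun i => (e4 (s i)).2)
  invFun := fun p i => e4.symm (p.1 i, p.2 i)
  left_inv := fun s => by funext i; simp
  right_inv := fun p => by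
    apply Prod.ext
    · funext i; simp
    · funext i; simp

theorem count {n k : ℕ} (hk : k ≤ n) :
    ∑ s : Fin n → Fin 4, ∑ s2 : Fin n → Fin 4, (if pos s k = pos s2 k then (1 : ℝ) else 0) =
      (4 ^ (n - k) * (Nat.centralBinom k : ℝ)) ^ 2 := by
  set al : (Fin n → Bool) → (Fin n → Bool) → ℝ := fun a a' =>
    if cnt (II n k) true a = cnt (II n k) true a' then (1 : ℝ) else 0 with hal
  have h0 : ∑ a : Fin n → Bool, ∑ a' : Fin n → Bool, al a a' =
      4 ^ (n - k) * (Nat.centralBinom k : ℝ) := by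
    have h := pairs (II n k)
    rw [card_II hk] at h
    exact h
  have h1 : ∀ s s2 : Fin n → Fin 4, (if pos s k = pos s2 k then (1 : ℝ) else 0) =
      al (Phi n s).1 (Phi n s2).1 * al (Phi n s).2 (Phi n s2).2 := by
    intro s s2
    have h := pos_iff s s2 k
    simp only [hal]
    change _ = (if cnt (II n k) true (fun i => (e4 (s i)).1) =
      cnt (II n k) true (fun i => (e4 (s2 i)).1) then (1 : ℝ) else 0) *
      (if cnt (II n k) true (fun i => (e4 (s i)).2) =
      cnt (II n k) true (fun i => (e4 (s2 i)).2) then (1 : ℝ) else 0)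
    by_cases hp : pos s k = pos s2 k
    · rw [if_pos hp, if_pos (h.mp hp).1, if_pos (h.mp hp).2, mul_one]
    · rw [if_neg hp]
      by_cases h3 : cnt (II n k) true (fun i => (e4 (s i)).1) =
          cnt (II n k) true (fun i => (e4 (s2 i)).1)
      · have h4 : ¬ cnt (II n k) true (fun i => (e4 (s i)).2) =
          cnt (II n k) true (fun i => (e4 (s2 i)).2) := fun h4 => hp (h.mpr ⟨h3, h4⟩)
        rw [if_neg h4, mul_zero]
      · rw [if_neg h3, zero_mul]
  simp_rw [h1]
  have h2 : ∑ s : Fin n → Fin 4, ∑ s2 : Fin n → Fin 4,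
      al (Phi n s).1 (Phi n s2).1 * al (Phi n s).2 (Phi n s2).2 =
      ∑ p : (Fin n → Bool) × (Fin n → Bool), ∑ p2 : (Fin n → Bool) × (Fin n → Bool),
        al p.1 p2.1 * al p.2 p2.2 := by
    refine Fintype.sum_equiv (Phi n) _ _ (fun s => ?_)
    exact Fintype.sum_equiv (Phi n) _ _ (fun s2 => rfl)
  rw [h2, Fintype.sum_prod_type]
  have h3 : ∀ a b : Fin n → Bool, ∑ p2 : (Fin n → Bool) × (Fin n → Bool),
      al (a, b).1 p2.1 * al (a, b).2 p2.2 = (∑ a', al a a') * ∑ b', al b b' := by
    intro a b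
    rw [Fintype.sum_prod_type, Finset.sum_mul_sum]
  simp_rw [h3]
  rw [← Finset.sum_mul_sum, h0]
  ring

end OVL

open OVL in
theorem t_OVL (n : ℕ) : (1 / 4 ^ n) * (1 / 4 ^ n) * ∑ s : Fin n → Fin 4, ∑ s2 : Fin n → Fin 4,
    (((Finset.Icc 1 n).filter (fun k => pos s k = pos s2 k)).card : ℝ) = RR n := by
  have h1 : ∑ s : Fin n → Fin 4, ∑ s2 : Fin n → Fin 4,
      (((Finset.Icc 1 n).filter (fun k => pos s k = pos s2 k)).card : ℝ) =
      ∑ k ∈ Finset.Icc 1 n, (4 ^ (n - k) * (Nat.centralBinom k : ℝ)) ^ 2 := by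
    have h2 : ∀ s s2 : Fin n → Fin 4,
        (((Finset.Icc 1 n).filter (fun k => pos s k = pos s2 k)).card : ℝ) =
        ∑ k ∈ Finset.Icc 1 n, (if pos s k = pos s2 k then (1 : ℝ) else 0) := by
      intro s s2
      rw [Finset.card_filter]
      push_cast
      rfl
    simp_rw [h2]
    have h3 : ∀ s : Fin n → Fin 4, ∑ s2 : Fin n → Fin 4, ∑ k ∈ Finset.Icc 1 n,
        (if pos s k = pos s2 k then (1 : ℝ) else 0) =
        ∑ k ∈ Finset.Icc 1 n, ∑ s2 : Fin n → Fin 4, (if pos s k = pos s2 k then (1 : ℝ) else 0) :=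
      fun s => Finset.sum_comm
    simp_rw [h3]
    rw [Finset.sum_comm]
    exact Finset.sum_congr rfl (fun k hk => count (Finset.mem_Icc.mp hk).2)
  rw [h1, RR, Finset.mul_sum]
  refine Finset.sum_congr rfl (fun k hk => ?_)
  have hk' : k ≤ n := (Finset.mem_Icc.mp hk).2
  have h4 : (4 : ℝ) ^ n = 4 ^ (n - k) * 4 ^ k := by
    rw [← pow_add, Nat.sub_add_cancel hk']
  rw [rr, h4]
  have h5 : (4 : ℝ) ^ (n - k) ≠ 0 := by positivity
  have h6 : (4 : ℝ) ^ k ≠ 0 := by positivity
  field_simp

end Pool.Agent.H784.QC
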